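import Pool.Agent.TC.Pub.Transfer

/-!
# The final statement in terms of `Pub.Defs`
-/

set_option autoImplicit false
set_option linter.unusedSectionVars false

open scoped Manifold ContDiff Topology

noncomputable section

namespace TC.Pub

section main

variable {n : ℕ} (M : ClosedManifold n)

theorem group_eq : (inferInstanceAs (Group (DiffG M.mfd)) : Group (DiffG M.mfd)) =
    (inferInstanceAs (Group (TC.DiffM n M.X)) : Group (TC.DiffM n M.X)) := rfl

theorem top_eq : (inferInstanceAs (TopologicalSpace (DiffG M.mfd)) : TopologicalSpace (DiffG M.mfd)) =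
    (inferInstanceAs (TopologicalSpace (TC.DiffM n M.X)) : TopologicalSpace (TC.DiffM n M.X)) := rfl

theorem Diff0_eq : Diff0 M = ↥(TC.Diff0 n M.X) := rfl

/-- Comparison of orientations. -/
def toOr (o : Orient n M.mfd) : TC.Orient M.X n where
  or := o.or
  isOpen := o.isOpen

/-- Comparison of orientations. -/
def ofOr (o : TC.Orient M.X n) : Orient n M.mfd where
  or := o.or
  isOpen := o.isOpen

/-- Comparison of Gauss maps. -/
def toGM (Φ : GaussMap M) : TC.UGaussMap n M.X where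
  toFun := Φ.toFun
  cont := Φ.cont
  lin := Φ.lin
  inv := Φ.inv

/-- Comparison of Gauss maps. -/
def ofGM (Φ : TC.UGaussMap n M.X) : GaussMap M where
  toFun := Φ.toFun
  cont := Φ.cont
  lin := Φ.lin
  inv := Φ.inv

theorem isClassifying_iff (o : Orient n M.mfd) (f : C(Univ M, BSO n)) :
    IsClassifying M o f ↔ TC.IsUClassifying (M := M.X) (toOr M o) f := by
  constructor
  · rintro ⟨Φ, h⟩
    exact ⟨toGM M Φ, h⟩
  · rintro ⟨Φ, h⟩
    exact ⟨ofGM M Φ, h⟩

end main

section generic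

variable {E B Z : Type} [TopologicalSpace E] [TopologicalSpace B] [TopologicalSpace Z]

theorem generic_mp {m j : ℕ} (π : C(E, B)) (f : C(E, Z)) (T : Transfer m π)
    (a : Cocycle Z (m + 1 + j)) (b : Cocycle B j) (hb : b.co = T.integ j (a.co.pull f)) :
    toHH (H.mk b) = (toFT T).integ (TC.HH.map f (toHH (H.mk a))) := by
  have h1 : co b.co = (toFT T).coch (co (a.co.pull f)) := by
    rw [hb]
    exact integ_eq T j _
  have h3 : ∀ (x : TC.Coch B j) (hx : TC.cobd x = 0),
      x = (toFT T).coch (co (a.co.pull f)) →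
      TC.HH.mk x hx = (toFT T).integ (TC.HH.map f (toHH (H.mk a))) := by
    intro x hx e
    subst e
    rfl
  exact h3 _ _ h1

theorem generic_mpr {m j : ℕ} (π : C(E, B)) (f : C(E, Z)) (T : TC.FibreTransfer m π)
    (c : H Z (m + 1 + j)) (κ : H B j) (hk : toHH κ = T.integ (TC.HH.map f (toHH c))) :
    ∃ (a : Cocycle Z (m + 1 + j)) (b : Cocycle B j),
      c = H.mk a ∧ b.co = (ofFT T).integ j (a.co.pull f) ∧ κ = H.mk b := by
  obtain ⟨a, rfl⟩ : ∃ a, c = H.mk a := by
    induction c using Quotient.inductionOn with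
    | h a => exact ⟨a, rfl⟩
  have hz : Co.cobd ((ofFT T).integ j (a.co.pull f)) = 0 := by
    have h1 : TC.cobd (T.coch (co (a.co.pull f))) = 0 := by
      rw [TC.FibreTransfer.cobd_coch]
      have h2 : TC.cobd (k := m + 1 + j) (co (a.co.pull f)) = 0 := by
        have h3 : TC.cobd (k := m + 1 + j) (TC.pull f (co a.co)) =
            TC.pull f (TC.cobd (co a.co)) := TC.cobd_pull _ _
        have h4 : TC.cobd (co a.co) = 0 := a.cobd_eq
        rw [h4, map_zero] at h3
        exact h3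
      rw [h2, map_zero]
    have h5 := integ_eq' T j (a.co.pull f)
    have h6 : TC.cobd (co ((ofFT T).integ j (a.co.pull f))) = 0 := by
      rw [h5]
      exact h1
    exact h6
  refine ⟨a, ⟨(ofFT T).integ j (a.co.pull f), hz⟩, rfl, rfl, ?_⟩
  have h3 : ∀ (x : TC.Coch B j) (hx : TC.cobd x = 0),
      x = T.coch (co (a.co.pull f)) →
      TC.HH.mk x hx = T.integ (TC.HH.map f (toHH (H.mk a))) := by
    intro x hx e
    subst e
    rfl
  apply toHH_injective
  rw [hk]
  exact (h3 _ _ (integ_eq' T j (a.co.pull f))).symm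

end generic

theorem isKappa_iff {m j : ℕ} (M : ClosedManifold (m + 1)) (o : Orient (m + 1) M.mfd)
    (c : H (BSO (m + 1)) (m + 1 + j)) (κ : H (BG (Diff0 M)) j) :
    IsKappa M o c κ ↔ TC.IsKappa (M := M.X) (toOr M o) (toHH c) (toHH κ) := by
  constructor
  · rintro ⟨f, T, a, b, hf, rfl, hb, rfl⟩
    exact ⟨f, toFT T, (isClassifying_iff M o f).1 hf, generic_mp (Univ.proj M) f T a b hb⟩
  · rintro ⟨f, T, hf, hk⟩
    obtain ⟨a, b, h1, h2, h3⟩ := generic_mpr (Univ.proj M) f T c κ hk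
    exact ⟨f, ofFT T, a, b, (isClassifying_iff M o f).2 hf, h1, h2, h3⟩

/-- The final statement. -/
def Goal3 : Prop :=
  ∃ (M : ClosedManifold 7) (o : Orient 7 M.mfd), Aspherical M.X ∧
    ∃ (c : H (BSO 7) 9) (κ : H (BG (Diff0 M)) 2),
      (∀ κ' : H (BG (Diff0 M)) 2, IsKappa (m := 6) (j := 2) M o c κ' ↔ κ' = κ) ∧
        κ ≠ H.zero (BG (Diff0 M)) 2

theorem goal3 (h : TC.Goal2) : Goal3 := by
  obtain ⟨M, tM, cM, mM, t2, cpt, conn, o, hasp, c, κ, hu, hne⟩ := h
  let N : ClosedManifold 7 := ⟨M⟩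
  obtain ⟨c', hc'⟩ := toHH_surjective (X := BSO 7) (k := 9) c
  obtain ⟨κ₀, hκ₀⟩ := toHH_surjective (X := BG (Diff0 N)) (k := 2) κ
  subst hc' hκ₀
  refine ⟨N, ofOr N o, hasp, c', κ₀, fun κ' => ?_, ?_⟩
  · have h1 := isKappa_iff (m := 6) (j := 2) N (ofOr N o) c' κ'
    have h2 : TC.IsKappa (m := 6) (j := 2) (M := N.X) (toOr N (ofOr N o)) (toHH c') (toHH κ') ↔
      toHH κ' = toHH κ₀ := hu (toHH κ')
    exact h1.trans (h2.trans toHH_injective.eq_iff)
  · intro h
    exact hne (congrArg toHH h)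

end TC.Pub
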