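import Pool.Agent.TC.Jets
import Pool.Agent.TC.Milnor

/-!
# Tautological classes of `BDiff_0(M)`: definitions used in the final statement

Everything the statement of `MP_bc2780_gt.AsphericalKappa` uses: singular cohomology mod 2, the
classifying space `BSO(n)`, closed manifolds, orientations, asphericity, the group of
diffeomorphisms with the `C^∞` topology and its identity component, the universal `M`-bundle over
`BDiff_0(M)` and its vertical tangent bundle, integration along the fibres, tautological classes.
(Iterated tangent bundles: `Pool.Agent.TC.Jets`; Milnor's `EG`, `BG = EG/G` and `EG ×_G X`: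
`Pool.Agent.TC.Milnor`.)
-/

set_option autoImplicit false
set_option linter.unusedSectionVars false

open scoped Manifold ContDiff Topology

noncomputable section

namespace TC.Pub

/-! ## Singular chains, cochains and cohomology with coefficients in `ZMod 2` -/

/-- The standard topological `k`-simplex. -/
def Sx (k : ℕ) : Type := stdSimplex ℝ (Fin (k + 1))

instance (k : ℕ) : TopologicalSpace (Sx k) := instTopologicalSpaceSubtype

/-- The inclusion of the `i`-th face of the standard simplex. -/
def Sx.face {k : ℕ} (i : Fin (k + 2)) (x : Sx k) : Sx (k + 1) := stdSimplex.map i.succAbove x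

theorem Sx.continuous_face {k : ℕ} (i : Fin (k + 2)) : Continuous (Sx.face i) :=
  stdSimplex.continuous_map _

/-- Singular `k`-simplices of `X`. -/
def Sing (X : Type) [TopologicalSpace X] (k : ℕ) : Type := C(Sx k, X)

/-- Singular `k`-chains with coefficients in `ZMod 2`. -/
def Ch (X : Type) [TopologicalSpace X] (k : ℕ) : Type := Sing X k →₀ ZMod 2

/-- Singular `k`-cochains with coefficients in `ZMod 2`. -/
def Co (X : Type) [TopologicalSpace X] (k : ℕ) : Type := Sing X k → ZMod 2

instance (X : Type) [TopologicalSpace X] (k : ℕ) : AddCommMonoid (Ch X k) :=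
  Finsupp.instAddCommMonoid

instance (X : Type) [TopologicalSpace X] (k : ℕ) : AddCommMonoid (Co X k) :=
  Pi.addCommMonoid

variable {X Y : Type} [TopologicalSpace X] [TopologicalSpace Y]

/-- The `i`-th face of a singular simplex. -/
def Sing.face {k : ℕ} (i : Fin (k + 2)) (σ : Sing X (k + 1)) : Sing X k :=
  ContinuousMap.comp σ ⟨Sx.face i, Sx.continuous_face i⟩

/-- The image of a singular simplex under a continuous map. -/
def Sing.push {k : ℕ} (f : C(X, Y)) (σ : Sing X k) : Sing Y k := ContinuousMap.comp f σ

/-- The boundary of a chain. -/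
def Ch.bd {k : ℕ} (z : Ch X (k + 1)) : Ch X k :=
  ∑ i : Fin (k + 2), (Finsupp.mapDomain (Sing.face i) z : Ch X k)

/-- The image of a chain under a continuous map. -/
def Ch.push {k : ℕ} (f : C(X, Y)) (z : Ch X k) : Ch Y k := Finsupp.mapDomain (Sing.push f) z

/-- The coboundary of a cochain. -/
def Co.cobd {k : ℕ} (c : Co X k) : Co X (k + 1) := fun σ => ∑ i : Fin (k + 2), c (σ.face i)

/-- The pull back of a cochain under a continuous map. -/
def Co.pull {k : ℕ} (f : C(X, Y)) (c : Co Y k) : Co X k := fun σ => c (σ.push f)

/-- The value of a cochain on a chain. -/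
def Co.eval {k : ℕ} (c : Co X k) (z : Ch X k) : ZMod 2 := Finsupp.sum z fun σ a => a * c σ

/-- Two cochains are cohomologous: their difference is a coboundary; in degree `0`: they are
equal. -/
def CohRel : (k : ℕ) → Co X k → Co X k → Prop
  | 0, a, b => a = b
  | _ + 1, a, b => ∃ c, a = b + Co.cobd c

variable (X) in
/-- Singular `k`-cocycles with coefficients in `ZMod 2`. -/
structure Cocycle (k : ℕ) where
  co : Co X k
  cobd_eq : Co.cobd co = 0

theorem Co.add_self {k : ℕ} (a : Co X k) : a + a = 0 := by
  funext σ
  exact CharTwo.add_self_eq_zero (a σ)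

theorem Co.cobd_add {k : ℕ} (a b : Co X k) : Co.cobd (a + b) = Co.cobd a + Co.cobd b := by
  funext σ
  exact Finset.sum_add_distrib

theorem Co.cobd_zero {k : ℕ} : Co.cobd (0 : Co X k) = 0 := by
  funext σ
  exact Finset.sum_const_zero

theorem CohRel.equivalence : ∀ k : ℕ, Equivalence (CohRel (X := X) k)
  | 0 => ⟨fun _ => rfl, fun h => h.symm, fun h h' => h.trans h'⟩
  | k + 1 => by
    refine ⟨fun a => ⟨0, ?_⟩, ?_, ?_⟩
    · rw [Co.cobd_zero, add_zero]
    · rintro a b ⟨c, hc⟩
      exact ⟨c, by rw [hc, add_assoc, Co.add_self, add_zero]⟩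
    · rintro a b c ⟨u, hu⟩ ⟨v, hv⟩
      exact ⟨v + u, by rw [hu, hv, Co.cobd_add, add_assoc]⟩

/-- Cocycles up to coboundaries. -/
def cohSetoid (X : Type) [TopologicalSpace X] (k : ℕ) : Setoid (Cocycle X k) where
  r a b := CohRel k a.co b.co
  iseqv := ⟨fun _ => (CohRel.equivalence k).refl _, fun h => (CohRel.equivalence k).symm h,
    fun h h' => (CohRel.equivalence k).trans h h'⟩

/-- Singular cohomology `H^k(X; ZMod 2)`: cocycles modulo coboundaries. -/
def H (X : Type) [TopologicalSpace X] (k : ℕ) : Type := Quotient (cohSetoid X k)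

/-- The cohomology class of a cocycle. -/
def H.mk {k : ℕ} (a : Cocycle X k) : H X k := Quotient.mk (cohSetoid X k) a

/-- The zero class. -/
def H.zero (X : Type) [TopologicalSpace X] (k : ℕ) : H X k := H.mk ⟨0, Co.cobd_zero⟩

/-! ## Integration along the fibres -/

section transfer

variable {E B : Type} [TopologicalSpace E] [TopologicalSpace B]

/-- The pull back of `π : E → B` along a singular simplex of `B`. -/
def PB (π : C(E, B)) {j : ℕ} (σ : Sing B j) : Type :=
  {p : Sx j × E // ContinuousMap.toFun σ p.1 = π p.2}

instance (π : C(E, B)) {j : ℕ} (σ : Sing B j) : TopologicalSpace (PB π σ) :=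
  instTopologicalSpaceSubtype

/-- The projection of the pull back to the total space. -/
def PB.toE (π : C(E, B)) {j : ℕ} (σ : Sing B j) : C(PB π σ, E) :=
  ⟨fun p => p.1.2, continuous_snd.comp continuous_subtype_val⟩

/-- The inclusion of the pull back along the `i`-th face, as a map. -/
def PB.faceFun (π : C(E, B)) {j : ℕ} (σ : Sing B (j + 1)) (i : Fin (j + 2))
    (p : PB π (σ.face i)) : PB π σ := ⟨(Sx.face i p.1.1, p.1.2), p.2⟩

theorem PB.continuous_faceFun (π : C(E, B)) {j : ℕ} (σ : Sing B (j + 1)) (i : Fin (j + 2)) :
    Continuous (PB.faceFun π σ i) := by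
  refine Continuous.subtype_mk ?_ _
  exact ((Sx.continuous_face i).comp (continuous_fst.comp continuous_subtype_val)).prodMk
    (continuous_snd.comp continuous_subtype_val)

/-- The inclusion of the pull back along the `i`-th face. -/
def PB.face (π : C(E, B)) {j : ℕ} (σ : Sing B (j + 1)) (i : Fin (j + 2)) :
    C(PB π (σ.face i), PB π σ) := ⟨PB.faceFun π σ i, PB.continuous_faceFun π σ i⟩

/-- A *fibre transfer* for a fibre bundle `π : E → B` whose fibres are closed connected manifolds
of dimension `m + 1`: chains `T_σ` of dimension `m + 1 + j` in the pull back of `E` along every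
singular `j`-simplex `σ` of `B`, compatible with faces, which over a point are cycles in the fibre
with non-zero homology class, i.e. represent the fundamental class (coefficients `ZMod 2`) of the
fibre.  (By the method of acyclic models such a system exists and is unique up to chain homotopy;
the map it induces in cohomology is the integration along the fibres.) -/
structure Transfer (m : ℕ) (π : C(E, B)) where
  chain : ∀ (j : ℕ) (σ : Sing B j), Ch (PB π σ) (m + 1 + j)
  bd_chain : ∀ (j : ℕ) (σ : Sing B (j + 1)),
    Ch.bd (k := m + 1 + j) (chain (j + 1) σ) =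
      ∑ i, Ch.push (PB.face π σ i) (chain j (σ.face i))
  bd_zero : ∀ σ : Sing B 0, Ch.bd (k := m) (chain 0 σ) = 0
  fund : ∀ (σ : Sing B 0) (y : Ch (PB π σ) (m + 1 + 1)), Ch.bd (k := m + 1) y ≠ chain 0 σ

/-- Integration along the fibres on cochains: `(T_! c) σ` is the value on `T_σ` of the pull back
of `c`. -/
def Transfer.integ {m : ℕ} {π : C(E, B)} (T : Transfer m π) (j : ℕ) (c : Co E (m + 1 + j)) :
    Co B j := fun σ => Co.eval (c.pull (PB.toE π σ)) (T.chain j σ)

end transfer

/-! ## The classifying space `BSO n` -/

/-- The real Hilbert space `ℓ²`. -/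
def L2 : Type := lp (fun _ : ℕ => ℝ) 2

instance : AddCommGroup L2 := NormedAddCommGroup.toAddCommGroup (E := lp (fun _ : ℕ => ℝ) 2)

instance : Module ℝ L2 := NormedSpace.toModule (𝕜 := ℝ) (E := lp (fun _ : ℕ => ℝ) 2)

instance : TopologicalSpace L2 := UniformSpace.toTopologicalSpace (α := lp (fun _ : ℕ => ℝ) 2)

/-- `n`-frames (linearly independent `n`-tuples) in `ℓ²`. -/
def Frames (n : ℕ) : Type := {v : Fin n → L2 // LinearIndependent ℝ v}

instance (n : ℕ) : TopologicalSpace (Frames n) := instTopologicalSpaceSubtype

/-- Two frames are equivalent if one is obtained from the other by an invertible matrix with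
positive determinant, i.e. if they are positive bases of the same oriented subspace. -/
def frameRel (n : ℕ) (v w : Frames n) : Prop :=
  ∃ A : Matrix (Fin n) (Fin n) ℝ, 0 < A.det ∧ ∀ j, w.1 j = ∑ i, A i j • v.1 i

theorem frameRel_equiv (n : ℕ) : Equivalence (frameRel n) where
  refl v := ⟨1, by simp, fun j => by simp [Matrix.one_apply, ite_smul]⟩
  symm := by
    rintro v w ⟨A, hA, h⟩
    have hu : IsUnit A.det := hA.ne'.isUnit
    refine ⟨A⁻¹, ?_, fun j => ?_⟩
    · rw [Matrix.det_nonsing_inv, Ring.inverse_eq_inv']
      exact inv_pos.mpr hA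
    · simp only [h, Finset.smul_sum, smul_smul]
      rw [Finset.sum_comm]
      have key : ∀ k, ∑ i, (A⁻¹ i j * A k i) • v.1 k = if k = j then v.1 k else 0 := by
        intro k
        rw [← Finset.sum_smul]
        have : ∑ i, A⁻¹ i j * A k i = (A * A⁻¹) k j := by
          rw [Matrix.mul_apply]
          exact Finset.sum_congr rfl fun i _ => mul_comm _ _
        rw [this, Matrix.mul_nonsing_inv A hu, Matrix.one_apply]
        split_ifs <;> simp
      simp only [key]
      simp
  trans := by
    rintro u v w ⟨A, hA, h⟩ ⟨B, hB, h'⟩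
    refine ⟨A * B, by rw [Matrix.det_mul]; positivity, fun j => ?_⟩
    simp only [h', h, Finset.smul_sum, smul_smul]
    rw [Finset.sum_comm]
    refine Finset.sum_congr rfl fun k _ => ?_
    rw [← Finset.sum_smul, Matrix.mul_apply]
    congr 1
    exact Finset.sum_congr rfl fun i _ => mul_comm _ _

/-- The equivalence of frames. -/
def frameSetoid (n : ℕ) : Setoid (Frames n) := ⟨frameRel n, frameRel_equiv n⟩

/-- The oriented Grassmannian of oriented `n`-dimensional subspaces of `ℓ²`, with the quotient
topology; it is a model of the classifying space `BSO(n)`. -/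
def BSO (n : ℕ) : Type := Quotient (frameSetoid n)

instance (n : ℕ) : TopologicalSpace (BSO n) := instTopologicalSpaceQuotient

/-- The oriented subspace spanned by a frame. -/
def BSO.mk {n : ℕ} (v : Frames n) : BSO n := Quotient.mk (frameSetoid n) v

/-! ## Manifolds, tangent vectors, orientations -/

/-- The tangent space of a manifold at a point. -/
def Tan (A : Mfd) (m : A.X) : Type := TangentSpace A.I m

instance (A : Mfd) (m : A.X) : AddCommGroup (Tan A m) := instAddCommGroupTangentSpace A.I m

instance (A : Mfd) (m : A.X) : Module ℝ (Tan A m) := instModuleTangentSpace A.I m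

/-- The point of the tangent bundle given by a tangent vector. -/
def Tan.mk (A : Mfd) (m : A.X) (v : Tan A m) : A.tan.X := (⟨m, v⟩ : TangentBundle A.I A.X)

/-- The tangent map `df : TA → TA` of a map `f : A → A`. -/
def Tan.map (A : Mfd) (f : A.X → A.X) : A.tan.X → A.tan.X := tangentMap A.I A.I f

/-- An orientation of the `n`-dimensional manifold `A`: orientations of the tangent spaces such
that the positive frames form an open subset of the space of all frames. -/
structure Orient (n : ℕ) (A : Mfd) where
  or : ∀ m : A.X, Orientation ℝ (Tan A m) (Fin n)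
  isOpen : ∃ U : Set (Fin n → A.tan.X), IsOpen U ∧
    ∀ (m : A.X) (t : Module.Basis (Fin n) ℝ (Tan A m)),
      (fun i => Tan.mk A m (t i)) ∈ U ↔ t.orientation = or m

/-- `M` is aspherical: it has a contractible covering space. -/
def Aspherical (M : Type) [TopologicalSpace M] : Prop :=
  ∃ (X : Type) (_ : TopologicalSpace X) (_ : ContractibleSpace X) (p : X → M),
    IsCoveringMap p ∧ Function.Surjective p

/-- A closed connected smooth manifold of dimension `n`. -/
structure ClosedManifold (n : ℕ) where
  X : Type
  [top : TopologicalSpace X]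
  [charted : ChartedSpace (EuclideanSpace ℝ (Fin n)) X]
  [smooth : IsManifold (𝓡 n) ∞ X]
  [t2 : T2Space X]
  [compact : CompactSpace X]
  [connected : ConnectedSpace X]

attribute [instance] ClosedManifold.top ClosedManifold.charted ClosedManifold.smooth

/-- A closed manifold as a manifold. -/
def ClosedManifold.mfd {n : ℕ} (M : ClosedManifold n) : Mfd where
  E := EuclideanSpace ℝ (Fin n)
  H := EuclideanSpace ℝ (Fin n)
  I := 𝓡 n
  X := M.X

/-! ## The group of diffeomorphisms with the `C^∞` topology -/

section diff

/-- The group of smooth diffeomorphisms of `A`. -/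
def DiffG (A : Mfd) : Type := Diffeomorph A.I A.I A.X A.X ∞

variable {A : Mfd}

/-- The diffeomorphism as a map. -/
def DiffG.fn (f : DiffG A) : A.X → A.X := Diffeomorph.toEquiv f

theorem DiffG.contMDiff (f : DiffG A) : ContMDiff A.I A.I ∞ f.fn :=
  Diffeomorph.contMDiff_toFun f

/-- The product is the composition. -/
instance : Mul (DiffG A) := ⟨fun f g => Diffeomorph.trans g f⟩

instance : One (DiffG A) := ⟨Diffeomorph.refl A.I A.X ∞⟩

instance : Inv (DiffG A) := ⟨fun f => Diffeomorph.symm f⟩

theorem DiffG.mul_assoc' (f g h : DiffG A) : f * g * h = f * (g * h) := rfl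

theorem DiffG.one_mul' (f : DiffG A) : 1 * f = f := rfl

theorem DiffG.inv_mul' (f : DiffG A) : f⁻¹ * f = 1 :=
  Diffeomorph.ext fun x => Equiv.symm_apply_apply (Diffeomorph.toEquiv f) x

instance : Group (DiffG A) :=
  Group.ofLeftAxioms DiffG.mul_assoc' DiffG.one_mul' DiffG.inv_mul'

theorem DiffG.mul_fn (f g : DiffG A) (x : A.X) : (f * g).fn x = f.fn (g.fn x) := rfl

/-- The iterated tangent map `T^r f : T^r A → T^r A` of a diffeomorphism. -/
def DiffG.iter (r : ℕ) (f : DiffG A) : C((iterT r A).X, (iterT r A).X) :=
  ⟨iterD r A f.fn, continuous_iterD r A f.fn f.contMDiff⟩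

/-- The `C^∞` topology on the group of diffeomorphisms: the coarsest topology for which the maps
`f ↦ T^r f` and `f ↦ T^r (f⁻¹)` are continuous for the compact-open topology, for all `r`. -/
instance : TopologicalSpace (DiffG A) :=
  ⨅ r : ℕ, TopologicalSpace.induced (fun f : DiffG A => (f.iter r, f⁻¹.iter r)) inferInstance

theorem DiffG.continuous_iff {X : Type} [TopologicalSpace X] {F : X → DiffG A} :
    Continuous F ↔ ∀ r : ℕ, Continuous (fun x => (F x).iter r) ∧
      Continuous (fun x => (F x)⁻¹.iter r) := by
  rw [continuous_iInf_rng]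
  refine forall_congr' fun r => ?_
  rw [continuous_induced_rng]
  exact ⟨fun h => ⟨continuous_fst.comp h, continuous_snd.comp h⟩, fun h => h.1.prodMk h.2⟩

theorem DiffG.iter_mul (r : ℕ) (f g : DiffG A) : (f * g).iter r = (f.iter r).comp (g.iter r) :=
  ContinuousMap.ext fun x => congrFun
    (iterD_comp r A f.fn g.fn f.contMDiff g.contMDiff) x

variable {n : ℕ} (M : ClosedManifold n)

/-- The group of diffeomorphisms is a topological group. -/
instance : IsTopologicalGroup (DiffG M.mfd) where
  continuous_mul := by
    have hid := (DiffG.continuous_iff (A := M.mfd)).1 continuous_id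
    refine DiffG.continuous_iff.2 fun r => ?_
    have : FiniteDimensional ℝ M.mfd.E :=
      inferInstanceAs (FiniteDimensional ℝ (EuclideanSpace ℝ (Fin n)))
    have : LocallyCompactSpace M.mfd.H :=
      inferInstanceAs (LocallyCompactSpace (EuclideanSpace ℝ (Fin n)))
    have : LocallyCompactSpace (iterT r M.mfd).X := iterT_locallyCompact r _
    constructor
    · simp only [DiffG.iter_mul]
      exact ((hid r).1.comp continuous_fst).compCM ((hid r).1.comp continuous_snd)
    · simp only [mul_inv_rev, DiffG.iter_mul]
      exact ((hid r).2.comp continuous_snd).compCM ((hid r).2.comp continuous_fst)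
  continuous_inv := by
    have hid := (DiffG.continuous_iff (A := M.mfd)).1 continuous_id
    refine DiffG.continuous_iff.2 fun r => ⟨(hid r).2, ?_⟩
    simp only [inv_inv]
    exact (hid r).1

/-- The identity component `Diff_0(M)` of the group of diffeomorphisms of `M`. -/
def Diff0 : Type := Subgroup.connectedComponentOfOne (DiffG M.mfd)

instance : Group (Diff0 M) := Subgroup.toGroup (Subgroup.connectedComponentOfOne (DiffG M.mfd))

instance : TopologicalSpace (Diff0 M) := instTopologicalSpaceSubtype

variable {M} in
/-- A diffeomorphism in the identity component as a map. -/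
def Diff0.fn (g : Diff0 M) : M.X → M.X := DiffG.fn g.1

/-- The action of `Diff_0(M)` on `M`. -/
instance : MulAction (Diff0 M) M.X where
  smul g x := g.fn x
  one_smul _ := rfl
  mul_smul _ _ _ := rfl

end diff

/-! ## The universal `M`-bundle over `BDiff_0(M)`, its vertical tangent bundle and `κ` -/

section universal

variable {n : ℕ}

/-- The total space `E = EG ×_G M`, `G = Diff_0(M)`, of the universal bundle. -/
def Univ (M : ClosedManifold n) : Type := Borel (Diff0 M) M.X

instance (M : ClosedManifold n) : TopologicalSpace (Univ M) :=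
  instTopologicalSpaceBorel (G := Diff0 M) M.X

/-- The universal bundle `E → BDiff_0(M)`. -/
def Univ.proj (M : ClosedManifold n) : C(Univ M, BG (Diff0 M)) := Borel.proj

/-- A Gauss map of the vertical tangent bundle `EG ×_G TM` of the universal bundle
`E = EG ×_G M → BG`, `G = Diff_0(M)`: a continuous map `Φ : EG × TM → ℓ²`, linear and injective on
the tangent spaces of `M`, with `Φ (g x, dg v) = Φ (x, v)`. -/
structure GaussMap (M : ClosedManifold n) where
  toFun : EJ (Diff0 M) × M.mfd.tan.X → L2
  cont : Continuous toFun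
  lin : ∀ (x : EJ (Diff0 M)) (m : M.X), ∃ L : Tan M.mfd m →ₗ[ℝ] L2,
    Function.Injective L ∧ ∀ v : Tan M.mfd m, toFun (x, Tan.mk M.mfd m v) = L v
  inv : ∀ (g : Diff0 M) (x : EJ (Diff0 M)) (v : M.mfd.tan.X),
    toFun (g • x, Tan.map M.mfd g.fn v) = toFun (x, v)

/-- `f : E → BSO n` is a classifying map of the (oriented) vertical tangent bundle of the universal
bundle `E = EG ×_G M → BG`, `G = Diff_0(M)`: for some Gauss map `Φ`, `f` maps the class of `(x, m)`
to the subspace `Φ (x, T_m M)` oriented by the images of the positive frames of `T_m M`. -/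
def IsClassifying (M : ClosedManifold n) (o : Orient n M.mfd) (f : C(Univ M, BSO n)) : Prop :=
  ∃ Φ : GaussMap M, ∀ (x : EJ (Diff0 M)) (m : M.X) (t : Module.Basis (Fin n) ℝ (Tan M.mfd m)),
    t.orientation = o.or m →
    ∃ hli : LinearIndependent ℝ (fun i => Φ.toFun (x, Tan.mk M.mfd m (t i))),
      f (Borel.mk (x, m)) = BSO.mk ⟨_, hli⟩

/-- `κ ∈ H^j(BDiff_0(M); ZMod 2)` is the tautological class `κ_c = π_!(c(T_v E))` of the class
`c ∈ H^(m+1+j)(BSO(m+1); ZMod 2)`, where `m + 1` is the dimension of `M`. -/
def IsKappa {m j : ℕ} (M : ClosedManifold (m + 1)) (o : Orient (m + 1) M.mfd)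
    (c : H (BSO (m + 1)) (m + 1 + j)) (κ : H (BG (Diff0 M)) j) : Prop :=
  ∃ (f : C(Univ M, BSO (m + 1))) (T : Transfer m (Univ.proj M))
    (a : Cocycle (BSO (m + 1)) (m + 1 + j)) (b : Cocycle (BG (Diff0 M)) j),
    IsClassifying M o f ∧ c = H.mk a ∧ b.co = T.integ j (a.co.pull f) ∧ κ = H.mk b

end universal

end TC.Pub
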