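import Pool.Agent.TC.Pub.Defs
import Pool.Agent.TC.Lit.Defs

/-!
# Comparison of the definitions of `Pub.Defs` with those of `TC.Defs` and `TC.Lit.Defs`
-/

set_option autoImplicit false
set_option linter.unusedSectionVars false

open scoped Manifold ContDiff Topology

noncomputable section

namespace TC.Pub

section coh

variable {X Y : Type} [TopologicalSpace X] [TopologicalSpace Y]

/-- A cochain as a cochain. -/
def co {k : ℕ} (a : Co X k) : TC.Coch X k := a

/-- A chain as a chain. -/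
def ch {k : ℕ} (a : Ch X k) : TC.Chain X k := a

theorem cohRel_iff (k : ℕ) (a b : Co X k) :
    CohRel k a b ↔ co a - co b ∈ TC.Bk X k := by
  cases k with
  | zero =>
    constructor
    · intro h
      have h' : a = b := h
      rw [h', sub_self]
      exact Submodule.zero_mem _
    · intro h
      have h' : co a - co b = 0 := h
      exact (@sub_eq_zero (TC.Coch X 0) _ a b).1 h'
  | succ k =>
    constructor
    · rintro ⟨c, hc⟩
      refine ⟨c, ?_⟩
      have h' : co a = co b + TC.cobd c := hc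
      rw [h']
      abel
    · rintro ⟨c, hc⟩
      refine ⟨c, ?_⟩
      show co a = co b + TC.cobd c
      rw [hc]
      abel

/-- The comparison of cohomology. -/
def toHH {k : ℕ} : H X k → TC.HH X k :=
  Quotient.lift (fun a : Cocycle X k => TC.HH.mk a.co a.cobd_eq) (by
    intro a b h
    have h' : CohRel k a.co b.co := h
    rw [cohRel_iff] at h'
    exact (Submodule.Quotient.eq _).2 h')

theorem toHH_mk {k : ℕ} (a : Cocycle X k) : toHH (H.mk a) = TC.HH.mk a.co a.cobd_eq := rfl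

theorem toHH_injective {k : ℕ} : Function.Injective (toHH (X := X) (k := k)) := by
  rintro ⟨a⟩ ⟨b⟩ h
  apply Quotient.sound
  show CohRel k a.co b.co
  rw [cohRel_iff]
  have h' : TC.HH.mk a.co a.cobd_eq = TC.HH.mk b.co b.cobd_eq := h
  exact (Submodule.Quotient.eq ((TC.Bk X k).submoduleOf (TC.Zk X k))
    (x := ⟨a.co, a.cobd_eq⟩) (y := ⟨b.co, b.cobd_eq⟩)).1 h'

theorem toHH_surjective {k : ℕ} : Function.Surjective (toHH (X := X) (k := k)) := by
  intro c
  obtain ⟨⟨a, ha⟩, rfl⟩ := Submodule.Quotient.mk_surjective _ c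
  exact ⟨H.mk ⟨a, ha⟩, rfl⟩

theorem toHH_zero {k : ℕ} : toHH (H.zero X k) = 0 := rfl

theorem eval_eq {k : ℕ} (c : Co X k) (z : Ch X k) :
    Co.eval c z = TC.pair (co c) (ch z) :=
  (Finsupp.linearCombination_apply TC.F2 (v := co c) (ch z)).symm

theorem ch_zero {k : ℕ} : ch (0 : Ch X k) = 0 := rfl

theorem ch_add {k : ℕ} (a b : Ch X k) : ch (a + b) = ch a + ch b := rfl

theorem ch_sum {k : ℕ} {ι : Type} (s : Finset ι) (a : ι → Ch X k) :
    ch (∑ i ∈ s, a i) = ∑ i ∈ s, ch (a i) := rfl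

theorem ch_push {k : ℕ} (f : C(X, Y)) (a : Ch X k) : ch (a.push f) = TC.cmap f (ch a) := rfl

theorem ch_bd {k : ℕ} (a : Ch X (k + 1)) : ch (a.bd) = TC.bd (ch a) := by
  unfold TC.bd
  rw [LinearMap.sum_apply]
  rfl

end coh

section transfer

variable {E B : Type} [TopologicalSpace E] [TopologicalSpace B]

theorem bd_chain_aux {m : ℕ} {π : C(E, B)} (T : Transfer m π) (j : ℕ) (σ : Sing B (j + 1)) :
    TC.bd (k := m + 1 + j) (ch (T.chain (j + 1) σ)) =
      ∑ i, TC.cmap (PB.face π σ i) (ch (T.chain j (σ.face i))) := by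
  have h := congrArg ch (T.bd_chain j σ)
  rw [ch_bd, ch_sum] at h
  exact h

theorem bd_zero_aux {m : ℕ} {π : C(E, B)} (T : Transfer m π) (σ : Sing B 0) :
    TC.bd (k := m) (ch (T.chain 0 σ)) = 0 := by
  have h := congrArg ch (T.bd_zero σ)
  rw [ch_bd] at h
  exact h

theorem fund_aux {m : ℕ} {π : C(E, B)} (T : Transfer m π) (σ : Sing B 0)
    (y : Ch (PB π σ) (m + 1 + 1)) : TC.bd (k := m + 1) (ch y) ≠ ch (T.chain 0 σ) := by
  intro hy
  refine T.fund σ y ?_
  have h : ch (Ch.bd (k := m + 1) y) = ch (T.chain 0 σ) := by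
    rw [ch_bd]
    exact hy
  exact h

/-- Comparison of transfers. -/
def toFT {m : ℕ} {π : C(E, B)} (T : Transfer m π) : TC.FibreTransfer m π where
  chain {j} σ := T.chain j σ
  bd_chain {j} σ := bd_chain_aux T j σ
  bd_zero σ := bd_zero_aux T σ
  fund σ := fun ⟨y, hy⟩ => fund_aux T σ y hy

/-- The chains of a transfer. -/
def ofC {m : ℕ} {π : C(E, B)} (T : TC.FibreTransfer m π) (j : ℕ) (σ : Sing B j) :
    Ch (PB π σ) (m + 1 + j) := T.chain (j := j) σ

theorem ofC_bd {m : ℕ} {π : C(E, B)} (T : TC.FibreTransfer m π) (j : ℕ) (σ : Sing B (j + 1)) :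
    TC.bd (k := m + 1 + j) (ch (ofC T (j + 1) σ)) =
      ∑ i, TC.cmap (PB.face π σ i) (ch (ofC T j (σ.face i))) :=
  T.bd_chain (j := j) σ

theorem ofC_bd_zero {m : ℕ} {π : C(E, B)} (T : TC.FibreTransfer m π) (σ : Sing B 0) :
    TC.bd (k := m) (ch (ofC T 0 σ)) = 0 :=
  T.bd_zero σ

theorem ofC_fund {m : ℕ} {π : C(E, B)} (T : TC.FibreTransfer m π) (σ : Sing B 0)
    (y : Ch (PB π σ) (m + 1 + 1)) : TC.bd (k := m + 1) (ch y) ≠ ch (ofC T 0 σ) :=
  fun hy => T.fund σ ⟨y, hy⟩

/-- Comparison of transfers. -/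
def ofFT {m : ℕ} {π : C(E, B)} (T : TC.FibreTransfer m π) : Transfer m π where
  chain j σ := ofC T j σ
  bd_chain j σ := by
    have h2 : ch (Ch.bd (k := m + 1 + j) (ofC T (j + 1) σ)) =
        ch (∑ i, Ch.push (PB.face π σ i) (ofC T j (σ.face i))) := by
      rw [ch_bd, ch_sum]
      exact ofC_bd T j σ
    exact h2
  bd_zero σ := by
    have h2 : ch (Ch.bd (k := m) (ofC T 0 σ)) = ch 0 := by
      rw [ch_bd]
      exact ofC_bd_zero T σ
    exact h2
  fund σ y hy := by
    refine ofC_fund T σ y ?_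
    have h := congrArg ch hy
    rw [ch_bd] at h
    exact h

theorem integ_eq {m : ℕ} {π : C(E, B)} (T : Transfer m π) (j : ℕ) (c : Co E (m + 1 + j)) :
    co (T.integ j c) = (toFT T).coch (co c) := by
  funext σ
  have h : ∀ τ : Sing B j, Co.eval (c.pull (PB.toE π τ)) (T.chain j τ) =
      TC.pair (co c) (TC.cmap (PB.toE π τ) (ch (T.chain j τ))) := fun τ => by
    rw [eval_eq]
    exact TC.pair_pull _ _ _
  exact h σ

theorem integ_eq' {m : ℕ} {π : C(E, B)} (T : TC.FibreTransfer m π) (j : ℕ)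
    (c : Co E (m + 1 + j)) : co ((ofFT T).integ j c) = T.coch (co c) :=
  integ_eq (ofFT T) j c

end transfer

end TC.Pub
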